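import Pool.Agent.Helper89.EA.U.U10
import Pool.Agent.Helper89.EA.S.Final
import Pool.Agent.Helper89.EA.P.B4b
import Pool.Agent.Helper89.EA.P.C1b

/-!
# Non-cellular ages have continuum many elementary classes

For every age in a finite relational language (the age of the countable structure `M₀`) there are
continuum many pairwise non elementarily equivalent countable structures with this age if and only
if the age is not cellular.
-/

namespace Pool.Agent.Results.MP_9a84bf_lc.CellularDichotomy

open Pool.Agent.Helper89.EA

theorem result (L : FirstOrder.Language.{0, 0}) [L.IsRelational] [Finite (Σ n, L.Relations n)]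
    (M₀ : Type) [L.Structure M₀] [Countable M₀] : Many L M₀ ↔ ¬ CellularAge L M₀ := by
  constructor
  · intro h hc
    exact not_many_of_cellularAge L M₀ hc h
  · intro hc
    rw [cellularAge_iff] at hc
    by_cases hS : ∃ k l, OP (rsOf L M₀) k l
    · exact many_of_manyS L M₀ (unstable_manyS hS)
    · exact many_of_manyS L M₀ (stable_manyS (fun k l h => hS ⟨k, l, h⟩) hc)

end Pool.Agent.Results.MP_9a84bf_lc.CellularDichotomy
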